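import Pool.Agent.W636.PiFinMain

/-!
Finiteness is definable in the lattice `E_Π` of `Π⁰₁` classes, by an explicit condition.

`EPi` is the type of all `Π⁰₁` classes (paths through computable binary trees), ordered by
inclusion, viewed as a structure for the first-order language `{≤}`.  `IsDefinable S` says that `S`
is the solution set of a first-order formula with one free variable and without parameters.

`FinCond P` is the following condition on the class `P`, phrased in the order only:
every class `Q ≤ P` has a complement inside `P`; every nonempty class `Q ≤ P` contains an atom; and
for every class `Q ≥ P`, if every atom below `P` has a complement inside `Q`, then so does `P`.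
-/

namespace Pool.Agent.Results.MP_aad418_lc.FiniteClasses

open Pool.Agent.Helper446.CB Pool.Agent.W636.PiFin

/-- The property of being finite is definable in the lattice of `Π⁰₁` classes: a class is finite
iff it satisfies the order-theoretic condition `FinCond`, which is first-order. -/
theorem result :
    (∀ P : EPi, P.1.Finite ↔ FinCond P) ∧ IsDefinable {P : EPi | P.1.Finite} :=
  ⟨fun _ => finite_iff, isDefinable_of_def1 defFinite⟩

end Pool.Agent.Results.MP_aad418_lc.FiniteClasses
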