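import Pool.Agent.W636.PiFinMain

/-!
Minimality is definable in the lattice `E_Π` of `Π⁰₁` classes.

`EPi` is the type of all `Π⁰₁` classes (paths through computable binary trees), ordered by
inclusion, viewed as a structure for the first-order language `{≤}`.  `IsDefinable S` says that `S`
is the solution set of a first-order formula with one free variable and without parameters.
-/

namespace Pool.Agent.Results.MP_aad418_lc.MinimalClasses

open Pool.Agent.Helper446.CB Pool.Agent.W636.PiFin

/-- `P` is a minimal `Π⁰₁` class: it is infinite and each of its `Π⁰₁` subclasses is finite or has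
finite complement in `P`. -/
def IsMinimal (P : EPi) : Prop :=
  P.1.Infinite ∧ ∀ Q : EPi, Q.1 ⊆ P.1 → Q.1.Finite ∨ (P.1 \ Q.1).Finite

/-- The property of being minimal is definable in the lattice of `Π⁰₁` classes. -/
theorem result : IsDefinable {P : EPi | IsMinimal P} :=
  isDefinable_of_def1 defMinimal

end Pool.Agent.Results.MP_aad418_lc.MinimalClasses
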